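import Mathlib
import Pool.Agent.Lib.Helper95.AirySum

/-!
# The edge limit of stationary Dyson Brownian motion (`β = 1`) is not the dynamical stochastic Airy operator

`IsStationaryGOE P M` is the stationary matrix process `dm = -m dt + √2 dB_GOE` (centred Gaussian process with
covariance `exp (-|s - t|)` times the GOE covariance), whose eigenvalues are stationary Dyson Brownian motion with
`β = 1`.  `IsOUWhiteNoise Q a ξ` is Ornstein-Uhlenbeck space-time white noise with parameter `a`, with values in the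
distributions on `(0, ∞)`.  `airyEigenvalue β T j` is the `j`-th eigenvalue (`j = 0, 1, ...`) of
`-d²/dx² + x + (2/√β) T`, by the Courant-Fischer principle on the form core `C_c^∞ (0, ∞)`.

The main theorem `result`: for every `a > 0` (in particular `a = 1`) and all times `s ≠ t` there is `k₀` such that
for all `k ≥ k₀` the rescaled top `k` eigenvalues at the two times `s`, `t` do not converge jointly in distribution
to the lowest `k` eigenvalues of the dynamical stochastic Airy operator with noise `ξ_a` at these times.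

Idea of the proof.  The sum of the top `k` eigenvalues is a supremum of linear functionals with Frobenius norm
`√k`, so Gaussian rotation bounds the mean square of its (rescaled) increment over `[s, t]` by `C |s - t| k`,
uniformly in `n`.  On the operator side the sum `S_k` of the lowest `k` eigenvalues reacts to the Gaussian variable
`Z = ξ_t(u) - ξ_s(u)`, `u = 1` on `[1, L]`, `L` of order `k^(2/3)`: reflecting `Z` (which leaves the law invariant)
changes the increment of `S_k` by at least `c k / √L`, of order `k^(2/3)`, with probability bounded below.  As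
`k^(2/3)` is much larger than `k^(1/2)`, the two increments cannot have the same law for large `k`.
-/

open MeasureTheory ProbabilityTheory Finset Filter Topology TopologicalSpace
open scoped NNReal ENNReal Distributions

namespace Pool.Agent.Results.MP_c8b564_pr.EdgeLimitFails

open Pool.Agent.Helper95

universe u v

/-- The `j`-th eigenvalue (`j = 0, 1, ...`) of `-d²/dx² + x + (2/√β) T` on the half line with Dirichlet condition at
`0`, by the Courant–Fischer principle on test functions. -/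
noncomputable def airyEigenvalue (β : ℝ) (T : 𝓓'(halfLine, ℝ)) (j : ℕ) : ℝ :=
  sInf {c : ℝ | ∃ V : Submodule ℝ 𝓓(halfLine, ℝ), Module.finrank ℝ V = j + 1 ∧ ∀ f ∈ V,
    (∫ x in Set.Ioi (0 : ℝ), ((deriv f x) ^ 2 + x * (f x) ^ 2)) + 2 / √β * T (mulTest f f) ≤
      c * ∫ x in Set.Ioi (0 : ℝ), (f x) ^ 2}

/-- Rescaled edge point number `j` (`j = 0, 1, ...`) of a symmetric matrix. -/
noncomputable def edgePoint {n : ℕ} (A : Matrix (Fin n) (Fin n) ℝ) (j : ℕ) : ℝ :=
  (n : ℝ) ^ (1 / 6 : ℝ) * (2 * √(n : ℝ) - topEig A j)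

/-- The time `t / (2 n^(1/3))`. -/
noncomputable def slowTime (n : ℕ) (t : ℝ≥0) : ℝ≥0 := t / (2 * (n : ℝ≥0) ^ (1 / 3 : ℝ))

/-- The rescaled top `k` eigenvalues at the two times `s`, `t`. -/
noncomputable def edgeVector {Ω : Type*} {n : ℕ} (M : ℝ≥0 → Ω → Matrix (Fin n) (Fin n) ℝ) (s t : ℝ≥0) (k : ℕ)
    (ω : Ω) : Fin 2 × Fin k → ℝ :=
  fun p => edgePoint (M (slowTime n (![s, t] p.1)) ω) p.2

/-- The lowest `k` eigenvalues of the dynamical stochastic Airy operator (`β = 1`) at the two times `s`, `t`. -/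
noncomputable def airyVector {Ω : Type*} (ξ : ℝ≥0 → Ω → 𝓓'(halfLine, ℝ)) (s t : ℝ≥0) (k : ℕ)
    (ω : Ω) : Fin 2 × Fin k → ℝ :=
  fun p => airyEigenvalue 1 (ξ (![s, t] p.1) ω) p.2

theorem airyEigenvalue_one (T : 𝓓'(halfLine, ℝ)) (j : ℕ) :
    airyEigenvalue 1 T j = minmax l2Form (airyForm 2 T) j := by
  unfold airyEigenvalue minmax
  have h1 : (2 : ℝ) / √1 = 2 := by simp
  congr 1
  ext c
  simp only [h1, airyForm_self, l2Form_self]
  rfl

theorem topEig_eq_sub {n : ℕ} (A : Matrix (Fin n) (Fin n) ℝ) (j : ℕ) :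
    topEig A j = topSum A (j + 1) - topSum A j := by
  unfold topSum
  rw [Fin.sum_univ_castSucc]
  simp

theorem aemeasurable_topEig {Ω : Type*} [MeasurableSpace Ω] {P : Measure Ω} {n : ℕ}
    {M : ℝ≥0 → Ω → Matrix (Fin n) (Fin n) ℝ} (hM : IsStationaryGOE P M) (t : ℝ≥0) (j : ℕ) :
    AEMeasurable (fun ω => topEig (M t ω) j) P := by
  by_cases hj : j < n
  · simp_rw [topEig_eq_sub]
    exact (aemeasurable_topSum hM t hj).sub (aemeasurable_topSum hM t hj.le)
  · have : (fun ω => topEig (M t ω) j) = fun _ => (0 : ℝ) := by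
      funext ω
      unfold topEig
      rw [dif_neg (fun h => hj h.2)]
    rw [this]
    exact aemeasurable_const

theorem aemeasurable_edgeVector {Ω : Type*} [MeasurableSpace Ω] {P : Measure Ω} {n : ℕ}
    {M : ℝ≥0 → Ω → Matrix (Fin n) (Fin n) ℝ} (hM : IsStationaryGOE P M) (s t : ℝ≥0) (k : ℕ) :
    AEMeasurable (edgeVector M s t k) P := by
  apply aemeasurable_pi_lambda
  intro p
  unfold edgeVector edgePoint
  have := aemeasurable_topEig hM (slowTime n (![s, t] p.1)) p.2
  fun_prop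

theorem aemeasurable_airyVector {Ω : Type*} [MeasurableSpace Ω] {Q : Measure Ω} {a : ℝ}
    {ξ : ℝ≥0 → Ω → 𝓓'(halfLine, ℝ)} (hξ : IsOUWhiteNoise Q a ξ) (s t : ℝ≥0) (k : ℕ) :
    AEMeasurable (airyVector ξ s t k) Q := by
  apply aemeasurable_pi_lambda
  intro p
  unfold airyVector
  simp_rw [airyEigenvalue_one]
  exact aemeasurable_minmax (hξ.isWhite _) _

/-- Difference of the sums of the first `m ≤ k` coordinates at the two times. -/
noncomputable def gap {k m : ℕ} (hm : m ≤ k) (x : Fin 2 × Fin k → ℝ) : ℝ :=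
  ∑ j : Fin m, (x (1, Fin.castLE hm j) - x (0, Fin.castLE hm j))

theorem continuous_gap {k m : ℕ} (hm : m ≤ k) : Continuous (gap hm) := by
  unfold gap
  fun_prop

theorem gap_edge {Ω : Type*} {n k m : ℕ} (hm : m ≤ k) (M : ℝ≥0 → Ω → Matrix (Fin n) (Fin n) ℝ) (s t : ℝ≥0) (ω : Ω) :
    gap hm (edgeVector M s t k ω) =
      -((n : ℝ) ^ (1 / 6 : ℝ) * (topSum (M (slowTime n t) ω) m - topSum (M (slowTime n s) ω) m)) := by
  unfold gap edgeVector edgePoint topSum
  rw [← Finset.sum_sub_distrib, Finset.mul_sum, ← Finset.sum_neg_distrib]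
  apply Finset.sum_congr rfl
  intro j _
  simp
  ring

theorem gap_airy {Ω : Type*} {k m : ℕ} (hm : m ≤ k) (ξ : ℝ≥0 → Ω → 𝓓'(halfLine, ℝ)) (s t : ℝ≥0) (ω : Ω) :
    gap hm (airyVector ξ s t k ω) = airySum (ξ t ω) m - airySum (ξ s ω) m := by
  unfold gap airyVector airySum
  rw [← Finset.sum_sub_distrib]
  apply Finset.sum_congr rfl
  intro j _
  rw [airyEigenvalue_one, airyEigenvalue_one]
  simp

/-- Tail bound on the matrix side. -/
theorem edge_tail {Ω : Type*} [MeasurableSpace Ω] {P : Measure Ω} {n : ℕ}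
    {M : ℝ≥0 → Ω → Matrix (Fin n) (Fin n) ℝ} (hM : IsStationaryGOE P M) {s t : ℝ≥0} (hst : s ≠ t) {k m : ℕ}
    (hm : m ≤ k) (hmn : m ≤ n) (hn : 0 < n) {y : ℝ} (hy : 0 < y) :
    P {ω | y < |gap hm (edgeVector M s t k ω)|} ≤
      ENNReal.ofReal (2 * Real.pi ^ 2 * |(s : ℝ) - t| * m / y ^ 2) := by
  have hnR : (0 : ℝ) < n := by exact_mod_cast hn
  have hn3 : (0 : ℝ) < (n : ℝ) ^ (1 / 3 : ℝ) := Real.rpow_pos_of_pos hnR _
  have hcoe : ∀ u : ℝ≥0, ((slowTime n u : ℝ≥0) : ℝ) = (u : ℝ) / (2 * (n : ℝ) ^ (1 / 3 : ℝ)) := by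
    intro u
    unfold slowTime
    push_cast
    rfl
  have hst' : (s : ℝ) ≠ t := fun h => hst (NNReal.coe_injective h)
  have hne : slowTime n s ≠ slowTime n t := by
    intro h
    apply hst'
    have h1 := congrArg (fun u : ℝ≥0 => (u : ℝ)) h
    simp only [hcoe] at h1
    exact (div_left_inj' (by positivity)).mp h1
  have hinc := goe_increment hM hne hmn
  have habs : |((slowTime n s : ℝ≥0) : ℝ) - (slowTime n t : ℝ≥0)| = |(s : ℝ) - t| / (2 * (n : ℝ) ^ (1 / 3 : ℝ)) := by
    rw [hcoe, hcoe, ← sub_div, abs_div, abs_of_pos (show (0 : ℝ) < 2 * (n : ℝ) ^ (1 / 3 : ℝ) by positivity)]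
  rw [habs] at hinc
  have hsq : ((n : ℝ) ^ (1 / 6 : ℝ)) ^ 2 = (n : ℝ) ^ (1 / 3 : ℝ) := by
    rw [← Real.rpow_natCast, ← Real.rpow_mul hnR.le]
    norm_num
  have hE : ∫⁻ ω, ENNReal.ofReal ((gap hm (edgeVector M s t k ω)) ^ 2) ∂P ≤
      ENNReal.ofReal (2 * Real.pi ^ 2 * |(s : ℝ) - t| * m) := by
    have h1 : ∀ ω, ENNReal.ofReal ((gap hm (edgeVector M s t k ω)) ^ 2) =
        ENNReal.ofReal ((n : ℝ) ^ (1 / 3 : ℝ)) *
          ENNReal.ofReal ((topSum (M (slowTime n t) ω) m - topSum (M (slowTime n s) ω) m) ^ 2) := by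
      intro ω
      rw [← ENNReal.ofReal_mul hn3.le, gap_edge, neg_sq, mul_pow, hsq]
    simp_rw [h1]
    rw [lintegral_const_mul' _ _ ENNReal.ofReal_ne_top]
    refine (mul_le_mul' le_rfl hinc).trans ?_
    rw [← ENNReal.ofReal_mul hn3.le]
    apply ENNReal.ofReal_le_ofReal
    apply le_of_eq
    field_simp
    ring
  have hmeas : AEMeasurable (fun ω => ENNReal.ofReal ((gap hm (edgeVector M s t k ω)) ^ 2)) P := by
    have h1 := (continuous_gap hm).measurable.comp_aemeasurable (aemeasurable_edgeVector hM s t k)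
    have h2 : AEMeasurable (fun ω => gap hm (edgeVector M s t k ω)) P := h1
    exact (h2.pow_const 2).ennreal_ofReal
  have hsub : P {ω | y < |gap hm (edgeVector M s t k ω)|} ≤
      P {ω | ENNReal.ofReal (y ^ 2) ≤ ENNReal.ofReal ((gap hm (edgeVector M s t k ω)) ^ 2)} := by
    apply measure_mono
    intro ω hω
    apply ENNReal.ofReal_le_ofReal
    have hω' : y < |gap hm (edgeVector M s t k ω)| := hω
    rw [← sq_abs (gap hm (edgeVector M s t k ω))]
    exact pow_le_pow_left₀ hy.le hω'.le 2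
  refine hsub.trans ((meas_ge_le_lintegral_div hmeas (by positivity) ENNReal.ofReal_ne_top).trans ?_)
  rw [ENNReal.ofReal_div_of_pos (by positivity)]
  exact ENNReal.div_le_div_right hE _

/-- **Main theorem.**  For `β = 1`, every `a > 0` and all times `s ≠ t` there is `k₀` such that for `k ≥ k₀` the
rescaled top `k` edge eigenvalues at the times `s`, `t` do not converge in distribution to the lowest `k` eigenvalues
of `-d²/dx² + x + 2 ξ_a` at these times (all the random vectors involved being measurable). -/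
theorem result (a : ℝ) (ha : 0 < a) (s t : ℝ≥0) (hst : s ≠ t) :
    ∃ k₀ : ℕ, ∀ k : ℕ, k₀ ≤ k →
      ∀ (Ω : ℕ → Type u) [∀ n, MeasurableSpace (Ω n)] (P : ∀ n, Measure (Ω n)) [∀ n, IsProbabilityMeasure (P n)]
        (M : ∀ n, ℝ≥0 → Ω n → Matrix (Fin n) (Fin n) ℝ), (∀ n, IsStationaryGOE (P n) (M n)) →
      ∀ (Ω' : Type v) [MeasurableSpace Ω'] (Q : Measure Ω') [IsProbabilityMeasure Q]
        (ξ : ℝ≥0 → Ω' → 𝓓'(halfLine, ℝ)), IsOUWhiteNoise Q a ξ →
      (∀ n, AEMeasurable (edgeVector (M n) s t k) (P n)) ∧ AEMeasurable (airyVector ξ s t k) Q ∧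
      ¬ TendstoInDistribution (fun n => edgeVector (M n) s t k) atTop (airyVector ξ s t k) P Q := by
  obtain ⟨c₁, p, K₀, hc₁, hp, hK₀, hlow⟩ := airySum_increment.{v} ha hst
  set B : ℝ := 8 * Real.pi ^ 2 * |(s : ℝ) - t| / c₁ ^ 2 with hB
  have hB0 : 0 ≤ B := by positivity
  -- choose `K` with `B / K < p`
  obtain ⟨K, hK, hKp⟩ : ∃ K : ℕ, K₀ ≤ K ∧ ENNReal.ofReal (B / K) < p := by
    have h1 : Tendsto (fun K : ℕ => ENNReal.ofReal (B / K)) atTop (𝓝 0) := by
      have h2 : Tendsto (fun K : ℕ => B / (K : ℝ)) atTop (𝓝 0) := tendsto_const_div_atTop_nhds_zero_nat B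
      have h3 := ENNReal.tendsto_ofReal h2
      rwa [ENNReal.ofReal_zero] at h3
    obtain ⟨K, h1, h2⟩ := ((eventually_ge_atTop K₀).and (h1.eventually_lt_const hp)).exists
    exact ⟨K, h1, h2⟩
  have hKpos : 0 < K := lt_of_lt_of_le hK₀ hK
  have hKR : (0 : ℝ) < K := by exact_mod_cast hKpos
  refine ⟨K ^ 3, ?_⟩
  intro k hk Ω _ P _ M hM Ω' _ Q _ ξ hξ
  refine ⟨fun n => aemeasurable_edgeVector (hM n) s t k, aemeasurable_airyVector hξ s t k, ?_⟩
  intro hconv
  have hcomp := hconv.continuous_comp (continuous_gap hk)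
  set y : ℝ := c₁ * (K : ℝ) ^ 2 / 2 with hy
  have hy0 : 0 < y := by positivity
  set U : Set ℝ := {x | y < |x|} with hU
  have hUo : IsOpen U := isOpen_lt continuous_const continuous_abs
  have hport := ProbabilityMeasure.le_liminf_measure_open_of_tendsto hcomp.tendsto hUo
  have hlim : Q {ω | y < |gap hk (airyVector ξ s t k ω)|} ≤
      liminf (fun n => P n {ω | y < |gap hk (edgeVector (M n) s t k ω)|}) atTop := by
    have e1 : (Q.map (gap hk ∘ airyVector ξ s t k)) U = Q {ω | y < |gap hk (airyVector ξ s t k ω)|} :=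
      Measure.map_apply_of_aemeasurable hcomp.aemeasurable_limit hUo.measurableSet
    have e2 : ∀ n, ((P n).map (gap hk ∘ edgeVector (M n) s t k)) U =
        P n {ω | y < |gap hk (edgeVector (M n) s t k ω)|} := fun n =>
      Measure.map_apply_of_aemeasurable (hcomp.forall_aemeasurable n) hUo.measurableSet
    rw [← e1]
    simp_rw [← e2]
    exact hport
  have hup : liminf (fun n => P n {ω | y < |gap hk (edgeVector (M n) s t k ω)|}) atTop ≤ ENNReal.ofReal (B / K) := by
    apply Filter.liminf_le_of_le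
    · isBoundedDefault
    · intro b hb
      obtain ⟨n, hn, hnK, hn0⟩ := (hb.and ((eventually_ge_atTop (K ^ 3)).and (eventually_gt_atTop 0))).exists
      refine hn.trans ((edge_tail (hM n) hst hk hnK hn0 hy0).trans ?_)
      apply ENNReal.ofReal_le_ofReal
      apply le_of_eq
      rw [hy, hB]
      push_cast
      field_simp
      ring
  have hdown : p ≤ Q {ω | y < |gap hk (airyVector ξ s t k ω)|} := by
    refine (hlow K hK hξ).trans (measure_mono ?_)
    intro ω hω
    have hω' : c₁ * (K : ℝ) ^ 2 ≤ |airySum (ξ t ω) (K ^ 3) - airySum (ξ s ω) (K ^ 3)| := hω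
    show y < |gap hk (airyVector ξ s t k ω)|
    rw [gap_airy]
    refine lt_of_lt_of_le ?_ hω'
    rw [hy]
    have : 0 < c₁ * (K : ℝ) ^ 2 := by positivity
    linarith
  exact absurd (hdown.trans (hlim.trans hup)) (not_le.mpr hKp)

end Pool.Agent.Results.MP_c8b564_pr.EdgeLimitFails
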